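import Mathlib
import Pool.Agent.Helper35.PI.St2

namespace Helper68.PI

open Helper35.PI
open scoped ContDiff Manifold Topology ENNReal BigOperators
open MeasureTheory Set Filter

variable {n : ℕ}

lemma jd_jg_diff {φ : EE n × ℝ → ℝ} {z : EE n × ℝ} (h : ContDiffAt ℝ 2 φ z) (k : Fin n) :
    DifferentiableAt ℝ (fun z' => jg φ z' k) z := by
  have h1 : ContDiffAt ℝ 1 (fderiv ℝ φ) z := h.fderiv_right (by norm_num)
  have h2 : DifferentiableAt ℝ (fderiv ℝ φ) z := h1.differentiableAt (by norm_num)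
  exact h2.clm_apply (differentiableAt_const _)

lemma jd_ev_diff {φ : EE n × ℝ → ℝ} {z : EE n × ℝ} (h : ContDiffAt ℝ 2 φ z) :
    ∀ᶠ z' in 𝓝 z, DifferentiableAt ℝ φ z' :=
  (h.eventually (by simp)).mono fun z' h' => h'.differentiableAt (by norm_num)

lemma jd_ev_ne {φ : EE n × ℝ → ℝ} {z : EE n × ℝ} (h : ContDiffAt ℝ 2 φ z) (h0 : φ z ≠ 0) :
    ∀ᶠ z' in 𝓝 z, φ z' ≠ 0 := h.continuousAt.eventually_ne h0

/-- fderiv of the logarithm -/
lemma jd_log_fderiv {φ : EE n × ℝ → ℝ} {z : EE n × ℝ} (h : DifferentiableAt ℝ φ z)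
    (h0 : φ z ≠ 0) (v : EE n × ℝ) :
    fderiv ℝ (fun z => Real.log (φ z)) z v = fderiv ℝ φ z v / φ z := by
  rw [(h.hasFDerivAt.log h0).fderiv]
  simp [div_eq_inv_mul]

lemma jd_div_diff {φ ψ : EE n × ℝ → ℝ} {z : EE n × ℝ} (h : DifferentiableAt ℝ φ z)
    (h' : DifferentiableAt ℝ ψ z) (h0 : ψ z ≠ 0) :
    DifferentiableAt ℝ (fun z => φ z / ψ z) z := by
  have h1 : HasFDerivAt (fun z => φ z * (ψ z)⁻¹)
      (φ z • (-(ψ z ^ 2)⁻¹ • fderiv ℝ ψ z) + (ψ z)⁻¹ • fderiv ℝ φ z) z :=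
    h.hasFDerivAt.mul ((hasDerivAt_inv h0).comp_hasFDerivAt z h'.hasFDerivAt)
  have h2 : (fun z => φ z / ψ z) = (fun z => φ z * (ψ z)⁻¹) := by
    funext z; rw [div_eq_mul_inv]
  rw [h2]
  exact h1.differentiableAt

/-- fderiv of a quotient -/
lemma jd_div_fderiv {φ ψ : EE n × ℝ → ℝ} {z : EE n × ℝ} (h : DifferentiableAt ℝ φ z)
    (h' : DifferentiableAt ℝ ψ z) (h0 : ψ z ≠ 0) (v : EE n × ℝ) :
    fderiv ℝ (fun z => φ z / ψ z) z v
      = fderiv ℝ φ z v / ψ z - φ z * fderiv ℝ ψ z v / ψ z ^ 2 := by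
  have h1 : HasFDerivAt (fun z => φ z * (ψ z)⁻¹)
      (φ z • (-(ψ z ^ 2)⁻¹ • fderiv ℝ ψ z) + (ψ z)⁻¹ • fderiv ℝ φ z) z :=
    h.hasFDerivAt.mul ((hasDerivAt_inv h0).comp_hasFDerivAt z h'.hasFDerivAt)
  have h2 : (fun z => φ z / ψ z) = (fun z => φ z * (ψ z)⁻¹) := by
    funext z; rw [div_eq_mul_inv]
  rw [h2, h1.fderiv]
  simp
  field_simp
  ring

theorem hJD (hJA : StJA) (hJB : StJB) : StJD := by
  intro n z
  refine ⟨?_, ?_⟩
  · intro φ h h0
    have hd : DifferentiableAt ℝ φ z := h.differentiableAt (by norm_num)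
    have hev : ∀ k : Fin n, (fun z' => jg (fun z => Real.log (φ z)) z' k)
        =ᶠ[𝓝 z] (fun z' => jg φ z' k / φ z') := by
      intro k
      filter_upwards [jd_ev_diff h, jd_ev_ne h h0] with z' h1 h2
      exact jd_log_fderiv h1 h2 _
    have hgg : ∀ k : Fin n, jgg (fun z => Real.log (φ z)) z k k
        = jgg φ z k k / φ z - jg φ z k * jg φ z k / φ z ^ 2 := by
      intro k
      show fderiv ℝ (fun z' => jg (fun z => Real.log (φ z)) z' k) z (ee k, 0) = _
      rw [(hev k).fderiv_eq, jd_div_fderiv (jd_jg_diff h k) hd h0]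
      rfl
    refine ⟨fun k => jd_log_fderiv hd h0 _, ?_⟩
    have ht : jt (fun z => Real.log (φ z)) z = jt φ z / φ z := jd_log_fderiv hd h0 _
    unfold jh
    rw [ht, Finset.sum_congr rfl fun k _ => hgg k, Finset.sum_sub_distrib,
      ← Finset.sum_div, ← Finset.sum_div]
    have : ∀ k : Fin n, jg φ z k * jg φ z k = jg φ z k ^ 2 := fun k => by ring
    simp only [this]
    field_simp
    ring
  · intro φ ψ h h' h0
    have hd : DifferentiableAt ℝ φ z := h.differentiableAt (by norm_num)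
    have hd' : DifferentiableAt ℝ ψ z := h'.differentiableAt (by norm_num)
    have hev : ∀ k : Fin n, (fun z' => jg (fun z => φ z / ψ z) z' k)
        =ᶠ[𝓝 z] (fun z' => jg φ z' k / ψ z' - (φ z' * jg ψ z' k) / (ψ z' * ψ z')) := by
      intro k
      filter_upwards [jd_ev_diff h, jd_ev_diff h', jd_ev_ne h' h0] with z' h1 h2 h3
      have := jd_div_fderiv h1 h2 h3 (ee k, 0)
      rw [pow_two] at this
      exact this
    have hgg : ∀ k : Fin n, jgg (fun z => φ z / ψ z) z k k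
        = jgg φ z k k / ψ z - φ z * jgg ψ z k k / ψ z ^ 2
          - 2 * (jg φ z k * jg ψ z k) / ψ z ^ 2 + 2 * φ z * (jg ψ z k ^ 2) / ψ z ^ 3 := by
      intro k
      show fderiv ℝ (fun z' => jg (fun z => φ z / ψ z) z' k) z (ee k, 0) = _
      have a1 := jd_jg_diff h k
      have a2 := jd_jg_diff h' k
      have b1 : HasFDerivAt (fun z' => φ z' * jg ψ z' k)
          (φ z • fderiv ℝ (fun z' => jg ψ z' k) z + jg ψ z k • fderiv ℝ φ z) z :=
        hd.hasFDerivAt.mul a2.hasFDerivAt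
      have b2 : HasFDerivAt (fun z' => ψ z' * ψ z')
          (ψ z • fderiv ℝ ψ z + ψ z • fderiv ℝ ψ z) z :=
        hd'.hasFDerivAt.mul hd'.hasFDerivAt
      have c1 : DifferentiableAt ℝ (fun z' => jg φ z' k / ψ z') z := jd_div_diff a1 hd' h0
      have c2 : DifferentiableAt ℝ (fun z' => (φ z' * jg ψ z' k) / (ψ z' * ψ z')) z :=
        jd_div_diff b1.differentiableAt b2.differentiableAt (mul_ne_zero h0 h0)
      have c3 : HasFDerivAt (fun z' => jg φ z' k / ψ z' - φ z' * jg ψ z' k / (ψ z' * ψ z'))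
          (fderiv ℝ (fun z' => jg φ z' k / ψ z') z
            - fderiv ℝ (fun z' => φ z' * jg ψ z' k / (ψ z' * ψ z')) z) z :=
        c1.hasFDerivAt.sub c2.hasFDerivAt
      rw [(hev k).fderiv_eq, c3.fderiv,
        ContinuousLinearMap.sub_apply, jd_div_fderiv a1 hd' h0,
        jd_div_fderiv b1.differentiableAt b2.differentiableAt (mul_ne_zero h0 h0),
        b1.fderiv, b2.fderiv]
      simp only [ContinuousLinearMap.add_apply, ContinuousLinearMap.smul_apply, smul_eq_mul]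
      show jgg φ z k k / ψ z - jg φ z k * jg ψ z k / ψ z ^ 2
        - ((φ z * jgg ψ z k k + jg ψ z k * jg φ z k) / (ψ z * ψ z)
          - φ z * jg ψ z k * (ψ z * jg ψ z k + ψ z * jg ψ z k) / (ψ z * ψ z) ^ 2) = _
      field_simp
      ring
    refine ⟨fun k => jd_div_fderiv hd hd' h0 _, ?_⟩
    have ht : jt (fun z => φ z / ψ z) z = jt φ z / ψ z - φ z * jt ψ z / ψ z ^ 2 :=
      jd_div_fderiv hd hd' h0 _
    unfold jh
    rw [ht, Finset.sum_congr rfl fun k _ => hgg k, Finset.sum_add_distrib,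
      Finset.sum_sub_distrib, Finset.sum_sub_distrib,
      ← Finset.sum_div, ← Finset.sum_div, ← Finset.sum_div, ← Finset.sum_div,
      ← Finset.mul_sum, ← Finset.mul_sum, ← Finset.mul_sum]
    field_simp
    ring

end Helper68.PI
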