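import Mathlib
import Pool.Agent.Helper35.PI.St3

namespace Helper68.PI

open Helper35.PI
open scoped ContDiff Manifold Topology ENNReal BigOperators
open MeasureTheory Set Filter

/-- the abstract argument: barrier comparison in a chart -/
lemma sc_core {n N : ℕ} {M : Type} [TopologicalSpace M] (F : M → ℝ → EE N)
    (G Y : M → ℝ → ℝ) (TL : M → ℝ → EE N → Prop) (C : ℝ) (hC : 0 ≤ C)
    (e : OpenPartialHomeomorph M (EE n)) (yq : EE n) (τ r₂ δ c₀ : ℝ)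
    (hr₂ : 0 < r₂) (hc₀ : 0 < c₀)
    (hI2q : ContDiffOn ℝ ∞ (fun z : EE n × ℝ => F (e.symm z.1) z.2) (e.target ×ˢ Iio 0))
    (hcF : ContinuousOn (fun z : M × ℝ => F z.1 z.2) (univ ×ˢ Iio (0 : ℝ)))
    (hcG : ContinuousOn (fun z : M × ℝ => G z.1 z.2) (univ ×ˢ Iio (0 : ℝ)))
    (hcY : ContinuousOn (fun z : M × ℝ => Y z.1 z.2) (univ ×ˢ Iio (0 : ℝ)))
    (hg0 : ∀ (p : M) (t : ℝ), t < 0 → 0 ≤ G p t)
    (hY0 : ∀ (p : M) (t : ℝ), 0 ≤ Y p t)
    (hball : Metric.closedBall yq r₂ ⊆ e.target)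
    (hgeo : ∀ t ∈ Icc (τ - δ) (τ + δ), ∀ y ∈ Metric.closedBall yq r₂,
      ∀ y' ∈ Metric.closedBall yq r₂,
        c₀ * ‖y - y'‖ ≤ ‖F (e.symm y) t - F (e.symm y') t‖ ∧
        TL (e.symm y) t (F (e.symm y) t - F (e.symm y') t))
    (hSB : ∀ (K α e' ρ B : ℝ) (xc : ℝ → EE N) (xc' : EE N) (p₀ : M) (t₀ : ℝ), t₀ < 0 →
      C * Y p₀ t₀ ≤ K → 0 < e' → 0 < ρ →
      ContDiffAt ℝ 2 xc t₀ → HasDerivAt xc xc' t₀ → ‖xc'‖ ≤ B →
      ‖F p₀ t₀ - xc t₀‖ < ρ → TL p₀ t₀ (F p₀ t₀ - xc t₀) →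
      ((n : ℝ) + ρ * B + 1) ^ 2 < α * ρ ^ 2 →
      ¬ (∀ᶠ z in 𝓝 (p₀, t₀), z.2 ≤ t₀ →
        Real.exp (K * t₀) * G p₀ t₀
            - e' * Real.exp (-α * t₀) * (ρ ^ 2 - ‖F p₀ t₀ - xc t₀‖ ^ 2) ^ 2
          ≤ Real.exp (K * z.2) * G z.1 z.2
            - e' * Real.exp (-α * z.2) * (ρ ^ 2 - ‖F z.1 z.2 - xc z.2‖ ^ 2) ^ 2))
    (q₁ q₂ : M) (hq₁s : q₁ ∈ e.source) (hq₂s : q₂ ∈ e.source)
    (hq₁b : e q₁ ∈ Metric.ball yq (r₂ / 4)) (hq₂b : e q₂ ∈ Metric.ball yq (r₂ / 4))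
    (t₁ t₂ : ℝ) (ht₁ : τ - δ < t₁) (ht₁₂ : t₁ < t₂) (ht₂ : t₂ < τ + δ) (ht₂0 : t₂ < 0)
    (hg1 : 0 < G q₁ t₁) : 0 < G q₂ t₂ := by
  -- `f`, `G`
  have hfs : ∀ y ∈ e.target, ∀ t : ℝ, t < 0 →
      ContDiffAt ℝ ∞ (fun z : EE n × ℝ => F (e.symm z.1) z.2) (y, t) := fun y hy t ht =>
    hI2q.contDiffAt ((e.open_target.prod isOpen_Iio).mem_nhds ⟨hy, ht⟩)
  have hmap : ContinuousOn (fun z : EE n × ℝ => ((e.symm z.1, z.2) : M × ℝ))
      (e.target ×ˢ Iio (0 : ℝ)) :=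
    (e.continuousOn_symm.comp continuousOn_fst (fun z hz => hz.1)).prodMk continuousOn_snd
  have hmt : MapsTo (fun z : EE n × ℝ => ((e.symm z.1, z.2) : M × ℝ))
      (e.target ×ˢ Iio (0 : ℝ)) (univ ×ˢ Iio (0 : ℝ)) := fun z hz => ⟨mem_univ _, hz.2⟩
  have hGc : ContinuousOn (fun z : EE n × ℝ => G (e.symm z.1) z.2)
      (e.target ×ˢ Iio (0 : ℝ)) := hcG.comp hmap hmt
  have hHc : ContinuousOn (fun z : EE n × ℝ => Y (e.symm z.1) z.2)
      (e.target ×ˢ Iio (0 : ℝ)) := hcY.comp hmap hmt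
  have hfc : ContinuousOn (fun z : EE n × ℝ => F (e.symm z.1) z.2)
      (e.target ×ˢ Iio (0 : ℝ)) := hcF.comp hmap hmt
  -- the curve
  obtain ⟨y₁, hy₁⟩ : ∃ y, y = e q₁ := ⟨_, rfl⟩
  obtain ⟨y₂, hy₂⟩ : ∃ y, y = e q₂ := ⟨_, rfl⟩
  have hy₁b : y₁ ∈ Metric.ball yq (r₂ / 4) := by rw [hy₁]; exact hq₁b
  have hy₂b : y₂ ∈ Metric.ball yq (r₂ / 4) := by rw [hy₂]; exact hq₂b
  have hsy₁ : e.symm y₁ = q₁ := by rw [hy₁]; exact e.left_inv hq₁s
  have hsy₂ : e.symm y₂ = q₂ := by rw [hy₂]; exact e.left_inv hq₂s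
  have hd : 0 < t₂ - t₁ := by linarith
  obtain ⟨yl, hyl⟩ : ∃ yl : ℝ → EE n, yl = fun t => y₁ + ((t - t₁) / (t₂ - t₁)) • (y₂ - y₁) :=
    ⟨_, rfl⟩
  have hyls : ContDiff ℝ ∞ yl := by
    rw [hyl]
    exact contDiff_const.add (((contDiff_id.sub contDiff_const).div_const _).smul
      contDiff_const)
  have hyl1 : yl t₁ = y₁ := by rw [hyl]; simp
  have hyl2 : yl t₂ = y₂ := by
    rw [hyl]
    simp [div_self hd.ne']
  have hylb : ∀ t ∈ Icc t₁ t₂, yl t ∈ Metric.ball yq (r₂ / 4) := by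
    intro t ht
    rw [hyl]
    refine (convex_ball yq (r₂ / 4)).add_smul_sub_mem hy₁b hy₂b ⟨?_, ?_⟩
    · exact div_nonneg (by linarith [ht.1]) hd.le
    · rw [div_le_one hd]; linarith [ht.2]
  have hbb : Metric.ball yq (r₂ / 4) ⊆ Metric.closedBall yq r₂ := by
    intro y hy
    rw [Metric.mem_ball] at hy
    rw [Metric.mem_closedBall]
    linarith
  have hylc : ∀ t ∈ Icc t₁ t₂, yl t ∈ Metric.closedBall yq r₂ := fun t ht => hbb (hylb t ht)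
  have htneg : ∀ t ∈ Icc t₁ t₂, t < 0 := fun t ht => lt_of_le_of_lt ht.2 ht₂0
  have htI : ∀ t ∈ Icc t₁ t₂, t ∈ Icc (τ - δ) (τ + δ) := fun t ht =>
    ⟨by linarith [ht.1], by linarith [ht.2]⟩
  obtain ⟨xc, hxc⟩ : ∃ xc : ℝ → EE N, xc = fun t => F (e.symm (yl t)) t := ⟨_, rfl⟩
  have hxcs : ∀ t ∈ Icc t₁ t₂, ContDiffAt ℝ ∞ xc t := by
    intro t ht
    rw [hxc]
    have h1 : ContDiffAt ℝ ∞ (fun s : ℝ => ((yl s, s) : EE n × ℝ)) t :=
      hyls.contDiffAt.prodMk contDiffAt_id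
    exact ContDiffAt.comp (g := fun z : EE n × ℝ => F (e.symm z.1) z.2)
      (f := fun s : ℝ => ((yl s, s) : EE n × ℝ)) t
      (hfs (yl t) (hball (hylc t ht)) t (htneg t ht)) h1
  have hxc2 : ∀ t ∈ Icc t₁ t₂, ContDiffAt ℝ 2 xc t := fun t ht =>
    by exact_mod_cast contDiffAt_infty.1 (hxcs t ht) 2
  have hxcc : ContinuousOn xc (Icc t₁ t₂) := fun t ht =>
    (hxc2 t ht).continuousAt.continuousWithinAt
  have hdxc : ContinuousOn (deriv xc) (Icc t₁ t₂) := by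
    intro t ht
    have h1 : ContDiffAt ℝ 1 (fderiv ℝ xc) t := (hxc2 t ht).fderiv_right (by norm_num)
    have h2 : ContinuousAt (fun s => fderiv ℝ xc s 1) t :=
      h1.continuousAt.clm_apply continuousAt_const
    exact h2.continuousWithinAt
  obtain ⟨B, hB⟩ := isCompact_Icc.exists_bound_of_continuousOn hdxc
  -- the compact set
  have hKc : IsCompact (Metric.closedBall yq r₂ ×ˢ Icc t₁ t₂) :=
    (isCompact_closedBall yq r₂).prod isCompact_Icc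
  have hKsub : Metric.closedBall yq r₂ ×ˢ Icc t₁ t₂ ⊆ e.target ×ˢ Iio (0 : ℝ) :=
    fun z hz => ⟨hball hz.1, htneg z.2 hz.2⟩
  obtain ⟨Ym, hYm⟩ := hKc.exists_bound_of_continuousOn (hHc.mono hKsub)
  -- choice of `ρ`
  have hG1 : 0 < G (e.symm y₁) t₁ := by rw [hsy₁]; exact hg1
  have ht₁m : t₁ ∈ Icc t₁ t₂ := left_mem_Icc.2 ht₁₂.le
  have ht₂m : t₂ ∈ Icc t₁ t₂ := right_mem_Icc.2 ht₁₂.le
  obtain ⟨η, hη, hηG⟩ : ∃ η > 0, ∀ y ∈ Metric.closedBall yq r₂, ‖y - y₁‖ < η →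
      0 < G (e.symm y) t₁ := by
    have hca : ContinuousAt (fun z : EE n × ℝ => G (e.symm z.1) z.2) (y₁, t₁) :=
      hGc.continuousAt ((e.open_target.prod isOpen_Iio).mem_nhds
        ⟨hball (hbb hy₁b), htneg t₁ ht₁m⟩)
    have hcb : ContinuousAt (fun y : EE n => G (e.symm y) t₁) y₁ :=
      ContinuousAt.comp (f := fun y : EE n => (y, t₁))
        (g := fun z : EE n × ℝ => G (e.symm z.1) z.2) hca
        (continuousAt_id.prodMk continuousAt_const)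
    have hev := hcb.eventually (lt_mem_nhds hG1)
    obtain ⟨η, hη, h⟩ := Metric.eventually_nhds_iff.1 hev
    exact ⟨η, hη, fun y _ hy => h (by rw [dist_eq_norm]; exact hy)⟩
  obtain ⟨ρ, hρ, hρ1, hρ2⟩ : ∃ ρ : ℝ, 0 < ρ ∧ ρ ≤ c₀ * r₂ / 4 ∧ ρ ≤ c₀ * η / 2 :=
    ⟨min (c₀ * r₂ / 4) (c₀ * η / 2), lt_min (by positivity) (by positivity),
      min_le_left _ _, min_le_right _ _⟩
  -- positivity at time `t₁`
  have hS1c : IsCompact ({y | y ∈ Metric.closedBall yq r₂ ∧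
      ‖F (e.symm y) t₁ - xc t₁‖ ≤ ρ} : Set (EE n)) := by
    have hcl : ContinuousOn (fun y : EE n => ‖F (e.symm y) t₁ - xc t₁‖)
        (Metric.closedBall yq r₂) := by
      have h1 : ContinuousOn (fun y : EE n => F (e.symm y) t₁) (Metric.closedBall yq r₂) :=
        hfc.comp (f := fun y : EE n => ((y, t₁) : EE n × ℝ))
          (continuousOn_id.prodMk continuousOn_const)
          (fun y hy => ⟨hball hy, htneg t₁ ht₁m⟩)
      exact (h1.sub continuousOn_const).norm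
    have h2 := hcl.preimage_isClosed_of_isClosed Metric.isClosed_closedBall
      (isClosed_Iic (a := ρ))
    exact (isCompact_closedBall yq r₂).of_isClosed_subset h2 inter_subset_left
  have hGS1 : ContinuousOn (fun y : EE n => G (e.symm y) t₁)
      {y | y ∈ Metric.closedBall yq r₂ ∧ ‖F (e.symm y) t₁ - xc t₁‖ ≤ ρ} :=
    hGc.comp (f := fun y : EE n => ((y, t₁) : EE n × ℝ))
      (continuousOn_id.prodMk continuousOn_const)
      (fun y hy => ⟨hball hy.1, htneg t₁ ht₁m⟩)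
  have hxct₁ : xc t₁ = F (e.symm y₁) t₁ := by rw [hxc]; simp only [hyl1]
  have hxct₂ : xc t₂ = F (e.symm y₂) t₂ := by rw [hxc]; simp only [hyl2]
  obtain ⟨ym, hym, hymin⟩ := hS1c.exists_isMinOn
    ⟨y₁, hbb hy₁b, by rw [hxct₁, sub_self, norm_zero]; exact hρ.le⟩ hGS1
  have hm1 : 0 < G (e.symm ym) t₁ := by
    refine hηG ym hym.1 ?_
    have h1 := (hgeo t₁ (htI t₁ ht₁m) ym hym.1 y₁ (hbb hy₁b)).1
    have h2 := hym.2
    rw [hxct₁] at h2
    have h3 : c₀ * ‖ym - y₁‖ ≤ c₀ * (η / 2) := by linarith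
    have h4 : ‖ym - y₁‖ ≤ η / 2 := le_of_mul_le_mul_left h3 hc₀
    linarith
  obtain ⟨m₁, hm₁⟩ : ∃ m, m = G (e.symm ym) t₁ := ⟨_, rfl⟩
  rw [← hm₁] at hm1
  -- constants
  obtain ⟨K, hK⟩ : ∃ K, K = C * Ym := ⟨_, rfl⟩
  obtain ⟨α, hα⟩ : ∃ α, α = (((n : ℝ) + ρ * B + 1) ^ 2 + 1) / ρ ^ 2 := ⟨_, rfl⟩
  have hαρ : ((n : ℝ) + ρ * B + 1) ^ 2 < α * ρ ^ 2 := by
    rw [hα, div_mul_cancel₀ _ (by positivity)]
    linarith
  obtain ⟨e', he'⟩ : ∃ e' : ℝ, e' = m₁ * Real.exp (K * t₁) * Real.exp (α * t₁) / (2 * ρ ^ 4) :=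
    ⟨_, rfl⟩
  have he'0 : 0 < e' := by rw [he']; positivity
  have he'1 : e' * Real.exp (-α * t₁) * ρ ^ 4 = m₁ * Real.exp (K * t₁) / 2 := by
    have h1 : Real.exp (α * t₁) * Real.exp (-α * t₁) = 1 := by
      rw [← Real.exp_add]; simp
    rw [he']
    generalize Real.exp (α * t₁) = E₁ at h1 ⊢
    generalize Real.exp (-α * t₁) = E₂ at h1 ⊢
    generalize Real.exp (K * t₁) = E₃
    have hρ4 : ρ ^ 4 ≠ 0 := by positivity
    calc m₁ * E₃ * E₁ / (2 * ρ ^ 4) * E₂ * ρ ^ 4 = m₁ * E₃ * (E₁ * E₂) / 2 := by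
          field_simp
      _ = m₁ * E₃ / 2 := by rw [h1, mul_one]
  -- the set `D`
  have hxz : ContinuousOn (fun z : EE n × ℝ => xc z.2) (Metric.closedBall yq r₂ ×ˢ Icc t₁ t₂) :=
    hxcc.comp continuousOn_snd (fun z hz => hz.2)
  have hnz : ContinuousOn (fun z : EE n × ℝ => ‖F (e.symm z.1) z.2 - xc z.2‖)
      (Metric.closedBall yq r₂ ×ˢ Icc t₁ t₂) := ((hfc.mono hKsub).sub hxz).norm
  obtain ⟨D, hD⟩ : ∃ D : Set (EE n × ℝ), D = (Metric.closedBall yq r₂ ×ˢ Icc t₁ t₂) ∩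
      (fun z : EE n × ℝ => ‖F (e.symm z.1) z.2 - xc z.2‖) ⁻¹' Iic ρ := ⟨_, rfl⟩
  have hDc : IsCompact D := by
    rw [hD]
    exact hKc.of_isClosed_subset (hnz.preimage_isClosed_of_isClosed hKc.isClosed isClosed_Iic)
      inter_subset_left
  have hDsub : D ⊆ Metric.closedBall yq r₂ ×ˢ Icc t₁ t₂ := by
    rw [hD]; exact inter_subset_left
  have hDmem : ∀ y t, y ∈ Metric.closedBall yq r₂ → t ∈ Icc t₁ t₂ →
      ‖F (e.symm y) t - xc t‖ ≤ ρ → (y, t) ∈ D := by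
    intro y t hy ht h
    rw [hD]
    exact ⟨⟨hy, ht⟩, h⟩
  have hDρ : ∀ z ∈ D, ‖F (e.symm z.1) z.2 - xc z.2‖ ≤ ρ := by
    intro z hz
    rw [hD] at hz
    exact hz.2
  obtain ⟨φ, hφ⟩ : ∃ φ : EE n × ℝ → ℝ, φ = fun z => Real.exp (K * z.2)
      * G (e.symm z.1) z.2
      - e' * Real.exp (-α * z.2) * (ρ ^ 2 - ‖F (e.symm z.1) z.2 - xc z.2‖ ^ 2) ^ 2 :=
    ⟨_, rfl⟩
  have hφc : ContinuousOn φ D := by
    rw [hφ]
    refine ContinuousOn.sub (ContinuousOn.mul ?_ ((hGc.mono hKsub).mono hDsub))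
      (ContinuousOn.mul ?_ ?_)
    · exact (Real.continuous_exp.comp (continuous_const.mul continuous_snd)).continuousOn
    · exact (continuous_const.mul (Real.continuous_exp.comp
        (continuous_const.mul continuous_snd))).continuousOn
    · exact (continuousOn_const.sub ((hnz.mono hDsub).pow 2)).pow 2
  have h2D : (y₂, t₂) ∈ D := by
    refine hDmem y₂ t₂ (hbb hy₂b) ht₂m ?_
    rw [hxct₂, sub_self, norm_zero]
    exact hρ.le
  obtain ⟨z₀, hz₀D, hz₀min⟩ := hDc.exists_isMinOn ⟨_, h2D⟩ hφc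
  have hkey : 0 ≤ φ z₀ := by
    by_contra hneg
    rw [not_le] at hneg
    obtain ⟨ys, ts⟩ := z₀
    have hzK := hDsub hz₀D
    have hysb : ys ∈ Metric.closedBall yq r₂ := hzK.1
    have htsI : ts ∈ Icc t₁ t₂ := hzK.2
    have hts0 : ts < 0 := htneg ts htsI
    have hρz : ‖F (e.symm ys) ts - xc ts‖ ≤ ρ := hDρ (ys, ts) hz₀D
    have hφz : φ (ys, ts) = Real.exp (K * ts) * G (e.symm ys) ts
      - e' * Real.exp (-α * ts) * (ρ ^ 2 - ‖F (e.symm ys) ts - xc ts‖ ^ 2) ^ 2 := by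
      rw [hφ]
    -- `t₁ < ts`
    have hts1 : t₁ < ts := by
      rcases htsI.1.lt_or_eq with h | h
      · exact h
      · exfalso
        subst h
        have h1 : m₁ ≤ G (e.symm ys) t₁ := by
          rw [hm₁]
          exact hymin ⟨hysb, hρz⟩
        have h2 : (ρ ^ 2 - ‖F (e.symm ys) t₁ - xc t₁‖ ^ 2) ^ 2 ≤ ρ ^ 4 := by
          have h3 : 0 ≤ ‖F (e.symm ys) t₁ - xc t₁‖ ^ 2 := by positivity
          have h4 : ‖F (e.symm ys) t₁ - xc t₁‖ ^ 2 ≤ ρ ^ 2 :=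
            pow_le_pow_left₀ (norm_nonneg _) hρz 2
          have h5 : (ρ ^ 2 - ‖F (e.symm ys) t₁ - xc t₁‖ ^ 2) ^ 2 ≤ (ρ ^ 2) ^ 2 :=
            pow_le_pow_left₀ (by linarith) (by linarith) 2
          calc _ ≤ _ := h5
            _ = ρ ^ 4 := by ring
        have h6 : e' * Real.exp (-α * t₁) * (ρ ^ 2 - ‖F (e.symm ys) t₁ - xc t₁‖ ^ 2) ^ 2
            ≤ m₁ * Real.exp (K * t₁) / 2 := by
          rw [← he'1]
          exact mul_le_mul_of_nonneg_left h2 (by positivity)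
        have h7 : Real.exp (K * t₁) * m₁ ≤ Real.exp (K * t₁) * G (e.symm ys) t₁ :=
          mul_le_mul_of_nonneg_left h1 (Real.exp_pos _).le
        have h8 : 0 < m₁ * Real.exp (K * t₁) := by positivity
        rw [hφz] at hneg
        linarith
    have hρz' : ‖F (e.symm ys) ts - xc ts‖ < ρ := by
      rcases hρz.lt_or_eq with h | h
      · exact h
      · exfalso
        rw [hφz, h] at hneg
        have h1 := hg0 (e.symm ys) ts hts0
        have h2 : 0 ≤ Real.exp (K * ts) * G (e.symm ys) ts :=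
          mul_nonneg (Real.exp_pos _).le h1
        rw [sub_self] at hneg
        have h3 : e' * Real.exp (-α * ts) * (0 : ℝ) ^ 2 = 0 := by ring
        linarith
    have hgz := hgeo ts (htI ts htsI) ys hysb (yl ts) (hylc ts htsI)
    have hxcts : xc ts = F (e.symm (yl ts)) ts := by rw [hxc]
    rw [← hxcts] at hgz
    have hysb' : ‖ys - yq‖ < r₂ := by
      have h1 : c₀ * ‖ys - yl ts‖ ≤ c₀ * (r₂ / 4) := by linarith [hgz.1]
      have h2 : ‖ys - yl ts‖ ≤ r₂ / 4 := le_of_mul_le_mul_left h1 hc₀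
      have h3 : ‖yl ts - yq‖ < r₂ / 4 := by
        have := hylb ts htsI
        rwa [Metric.mem_ball, dist_eq_norm] at this
      have h4 : ‖ys - yq‖ ≤ ‖ys - yl ts‖ + ‖yl ts - yq‖ := norm_sub_le_norm_sub_add_norm_sub _ _ _
      linarith
    have hyst : ys ∈ e.target := hball hysb
    refine hSB K α e' ρ B xc (deriv xc ts) (e.symm ys) ts hts0
      ?_ he'0 hρ (hxc2 ts htsI) ((hxc2 ts htsI).differentiableAt (by norm_num)).hasDerivAt
      (hB ts htsI) hρz' hgz.2 hαρ ?_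
    · have h1 := hYm (ys, ts) hzK
      rw [Real.norm_eq_abs, abs_of_nonneg (hY0 _ _)] at h1
      rw [hK]
      exact mul_le_mul_of_nonneg_left h1 hC
    · -- local minimum
      have hsrc : e.symm ys ∈ e.source := e.map_target hyst
      have hcx : ContinuousAt (fun z : M × ℝ => ‖F z.1 z.2 - xc z.2‖) (e.symm ys, ts) := by
        have h1 : ContinuousAt (fun z : M × ℝ => F z.1 z.2) (e.symm ys, ts) :=
          hcF.continuousAt ((isOpen_univ.prod isOpen_Iio).mem_nhds ⟨mem_univ _, hts0⟩)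
        have h2 : ContinuousAt (fun z : M × ℝ => xc z.2) (e.symm ys, ts) :=
          ContinuousAt.comp (f := fun z : M × ℝ => z.2) (g := xc)
            (hxc2 ts htsI).continuousAt continuousAt_snd
        exact (h1.sub h2).norm
      have hev1 : ∀ᶠ z : M × ℝ in 𝓝 (e.symm ys, ts), ‖F z.1 z.2 - xc z.2‖ < ρ :=
        hcx.eventually (gt_mem_nhds hρz')
      have hev2 : ∀ᶠ z : M × ℝ in 𝓝 (e.symm ys, ts), z.1 ∈ e.source :=
        continuousAt_fst.eventually (e.open_source.mem_nhds hsrc)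
      have hev3 : ∀ᶠ z : M × ℝ in 𝓝 (e.symm ys, ts), ‖e z.1 - yq‖ < r₂ := by
        have h1 : ContinuousAt (fun z : M × ℝ => ‖e z.1 - yq‖) (e.symm ys, ts) := by
          have h2 : ContinuousAt (fun z : M × ℝ => e z.1) (e.symm ys, ts) :=
            ContinuousAt.comp (f := fun z : M × ℝ => z.1) (g := e)
              (e.continuousAt hsrc) continuousAt_fst
          exact (h2.sub continuousAt_const).norm
        refine h1.eventually (gt_mem_nhds ?_)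
        show ‖e (e.symm ys) - yq‖ < r₂
        rw [e.right_inv hyst]
        exact hysb'
      have hev4 : ∀ᶠ z : M × ℝ in 𝓝 (e.symm ys, ts), t₁ < z.2 :=
        continuousAt_snd.eventually (lt_mem_nhds hts1)
      filter_upwards [hev1, hev2, hev3, hev4] with z h1 h2 h3 h4 h5
      have hzI : z.2 ∈ Icc t₁ t₂ := ⟨h4.le, h5.trans htsI.2⟩
      have hzD : (e z.1, z.2) ∈ D := by
        refine hDmem _ _ ?_ hzI ?_
        · rw [Metric.mem_closedBall, dist_eq_norm]; exact h3.le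
        · rw [e.left_inv h2]; exact h1.le
      have h6 : φ (ys, ts) ≤ φ (e z.1, z.2) := hz₀min hzD
      rw [hφ] at h6
      simp only [e.left_inv h2] at h6
      exact h6
  have h2φ : 0 ≤ φ (y₂, t₂) := hkey.trans (hz₀min h2D)
  rw [hφ] at h2φ
  simp only [hxct₂, sub_self, norm_zero] at h2φ
  rw [hsy₂] at h2φ
  have h3 : 0 < e' * Real.exp (-α * t₂) * (ρ ^ 2 - 0 ^ 2) ^ 2 := by
    have : (ρ ^ 2 - 0 ^ 2 : ℝ) = ρ ^ 2 := by ring
    rw [this]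
    positivity
  have h4 : 0 < Real.exp (K * t₂) * G q₂ t₂ := by linarith
  exact (mul_pos_iff_of_pos_left (Real.exp_pos _)).1 h4

theorem hSC (hSB : StSB) (hSC1 : StSC1) (hI2 : StI2) (hI3 : StI3) (hI4 : StI4)
    (hPO : StPO) : StSC := by
  have _ := hI3
  have _ := hPO
  intro n N hn M _ _ _ _ F hF c ε hε hc0 hc1 hpin q τ hτ
  obtain ⟨r₂, δ, c₀, hr₂, hδ, hτδ, hc₀, hball, hgeo⟩ := hSC1 n N hn M F hF q τ hτ
  have hI2q := hI2 n N M F hF q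
  obtain ⟨hcF, hcH, hcA, -⟩ := hI4 n N M F hF
  have hqs : q ∈ (chartAt (EE n) q).source := mem_chart_source (EE n) q
  have hgc : ContinuousOn (fun z : M × ℝ => gF n c F z.1 z.2) (univ ×ˢ Iio (0 : ℝ)) := by
    unfold gF
    exact ((hcH.norm.pow 2).const_smul c).sub hcA
  have hyc : ContinuousOn (fun z : M × ℝ => ‖HH (n := n) F z.1 z.2‖ ^ 2)
      (univ ×ˢ Iio (0 : ℝ)) := hcH.norm.pow 2
  have hg0 : ∀ (p : M) (t : ℝ), t < 0 → 0 ≤ gF n c F p t := by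
    intro p t ht
    have h1 := hpin p t ht
    have h2 : 0 ≤ ε * ‖HH (n := n) F p t‖ ^ 2 := by positivity
    unfold gF
    linarith
  refine ⟨(chartAt (EE n) q).source ∩
    (chartAt (EE n) q) ⁻¹' Metric.ball (chartAt (EE n) q q) (r₂ / 4), ?_, δ, hδ, ?_⟩
  · refine Filter.inter_mem ((chartAt (EE n) q).open_source.mem_nhds hqs) ?_
    exact ((chartAt (EE n) q).continuousAt hqs).preimage_mem_nhds
      (Metric.ball_mem_nhds _ (by positivity))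
  intro q₁ hq₁ q₂ hq₂ t₁ t₂ ht₁ ht₁₂ ht₂ ht₂0 hg1
  refine sc_core F (gF n c F) (fun p t => ‖HH (n := n) F p t‖ ^ 2)
    (fun p t w => ∀ v ∈ (TS (n := n) F p t)ᗮ, ‖v‖ = 1 →
      (inner ℝ w v : ℝ) ^ 2 ≤ ‖w‖ ^ 2 / 2) (3 * c ^ 2 / ε) (by positivity)
    (chartAt (EE n) q) (chartAt (EE n) q q) τ r₂ δ c₀ hr₂ hc₀ hI2q hcF hgc hyc hg0
    (fun p t => by positivity) hball hgeo ?_ q₁ q₂ hq₁.1 hq₂.1 hq₁.2 hq₂.2 t₁ t₂ ht₁ ht₁₂
    ht₂ ht₂0 hg1
  intro K α e' ρ B xc xc' p₀ t₀ ht₀ hK he' hρ hxc hxc' hB hρz htilt hdisc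
  exact hSB n N hn M F hF c ε K α e' ρ B xc xc' p₀ t₀ hε hc0 hc1 ht₀ hpin hK he' hρ hxc hxc'
    hB hρz htilt hdisc

end Helper68.PI
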